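import Pool.Agent.LibCPE48.QI2
import Pool.Agent.LibCPE48.AN

/-!
# MP_972473_an: mixing maps with completely positive entropy on the `n`-torus, `n ≥ 3`

The set of continuous topologically mixing self-maps of the `n`-torus with completely positive
entropy is not Borel for the uniform topology, for every `n ≥ 3`.  More precisely every analytic
set reduces to its complement by a Borel map with values in the set of mixing maps.
-/

set_option autoImplicit false

namespace Pool.Agent.Results.MP_972473_an.NotBorelDimThree

open Set Function Filter Topology MeasureTheory CPE48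

/-- For `n ≥ 3`, the set of continuous maps of the `n`-torus (with the compact-open topology,
which is the topology of uniform convergence) which are topologically mixing and have completely
positive topological entropy is not Borel; in fact every analytic set of a Polish space is
Borel-reducible to the complement of this set inside the mixing maps. -/
theorem result (n : ℕ) (hn : 3 ≤ n) :
    (¬ MeasurableSet[borel C(Fin n → UnitAddCircle, Fin n → UnitAddCircle)]
      {f : C(Fin n → UnitAddCircle, Fin n → UnitAddCircle) | Mixing f ∧ CPE f}) ∧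
    ∀ (α : Type) [TopologicalSpace α] [PolishSpace α] (A : Set α), AnalyticSet A →
      ∃ G : α → C(Fin n → UnitAddCircle, Fin n → UnitAddCircle),
        Measurable[borel α, borel C(Fin n → UnitAddCircle, Fin n → UnitAddCircle)] G ∧
        (∀ a, Mixing (G a)) ∧ ∀ a, CPE (G a) ↔ a ∉ A := by
  obtain ⟨m, rfl⟩ : ∃ m, n = m + 3 := ⟨n - 3, by omega⟩
  have key : ∀ (α : Type) [TopologicalSpace α] [PolishSpace α] (A : Set α), AnalyticSet A →
      ∃ G : α → C(Fin (m + 3) → UnitAddCircle, Fin (m + 3) → UnitAddCircle),
        Measurable[borel α, borel C(Fin (m + 3) → UnitAddCircle, Fin (m + 3) → UnitAddCircle)] G ∧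
        (∀ a, Mixing (G a)) ∧ ∀ a, CPE (G a) ↔ a ∉ A := by
    intro α _ _ A hA
    let _ : MeasurableSpace α := borel α
    have : BorelSpace α := ⟨rfl⟩
    exact reductionQ m A hA
  refine ⟨?_, key⟩
  intro hS
  obtain ⟨A, hA, hnA⟩ := exists_analytic_not_borel
  obtain ⟨G, hG, hmix, hcpe⟩ := key (ℕ → ℕ) A hA
  apply hnA
  have h1 := hG hS
  have h2 : G ⁻¹' {f : C(Fin (m + 3) → UnitAddCircle, Fin (m + 3) → UnitAddCircle) |
      Mixing f ∧ CPE f} = Aᶜ := by
    ext a
    exact ⟨fun h => (hcpe a).mp h.2, fun h => ⟨hmix a, (hcpe a).mpr h⟩⟩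
  rw [h2] at h1
  have h3 : MeasurableSet[borel (ℕ → ℕ)] A := by
    have := MeasurableSet.compl h1
    rwa [compl_compl] at this
  rwa [← BorelSpace.measurable_eq (α := ℕ → ℕ)] at h3

end Pool.Agent.Results.MP_972473_an.NotBorelDimThree
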