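import Pool.Agent.LibCI48.H3

/-!
# MP_972473_an: smooth mixing maps with completely positive entropy on the `n`-torus, `n ≥ 5`

For every `n ≥ 5` and every `k ∈ {0, 1, 2, ..., ∞}` the set of `C^k` topologically mixing self-maps
of the `n`-torus with completely positive entropy is not a Borel subset of the set of all `C^k`
self-maps with the uniform topology.  More precisely every analytic set reduces to its complement
by a Borel map with values in the set of mixing `C^∞` maps.
-/

set_option autoImplicit false

namespace Pool.Agent.Results.MP_972473_an.SmoothNotBorel

open Set Function Filter Topology MeasureTheory CPE48 CI48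

/-- For `n ≥ 5` and every `k : ℕ∞` (so `k = ∞` included), the set of the `C^k` maps of the
`n`-torus which are topologically mixing and have completely positive topological entropy is not
Borel in the set of all `C^k` maps, with the topology induced by `C(T^n, T^n)` (the compact-open
topology, which is the topology of uniform convergence); in fact every analytic set of a Polish
space is Borel-reducible to the complement of this set inside the mixing `C^∞` maps.
`IsCk n k f` says that `f` has a lift `ℝ^n → ℝ^n` of class `C^k`. -/
theorem result (n : ℕ) (hn : 5 ≤ n) :
    (∀ k : ℕ∞, ¬ MeasurableSet[borel {f : C(Fin n → UnitAddCircle, Fin n → UnitAddCircle) //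
        IsCk n k f}]
      {f : {f : C(Fin n → UnitAddCircle, Fin n → UnitAddCircle) // IsCk n k f} |
        Mixing f.1 ∧ CPE f.1}) ∧
    ∀ (α : Type) [TopologicalSpace α] [PolishSpace α] (A : Set α), AnalyticSet A →
      ∃ G : α → C(Fin n → UnitAddCircle, Fin n → UnitAddCircle),
        Measurable[borel α, borel C(Fin n → UnitAddCircle, Fin n → UnitAddCircle)] G ∧
        (∀ a, IsCk n ⊤ (G a)) ∧ (∀ a, Mixing (G a)) ∧ ∀ a, CPE (G a) ↔ a ∉ A :=
  result_n n hn

end Pool.Agent.Results.MP_972473_an.SmoothNotBorel
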